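import Pool.Agent.Lib_MP_badd8c_sd.Final

/-!
# Gorenstein algebras of socle degree at most four: Hilbert functions and symmetric decompositions

`SymDecs k r j` and `HilbFns k r j` (Lib_MP_badd8c_sd/Defs.lean) are the sets of symmetric decompositions and of Hilbert
functions of the Artinian Gorenstein quotients `k[[x_1,...,x_r]]/I`, `I ⊆ m^2`, of socle degree `j`.
We determine them for `j = 4` over every infinite field `k` and show that for `j ≤ 4` they do not depend on `k`.
-/

set_option autoImplicit false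

namespace Pool.Agent.Results.MP_badd8c_ag.SocleDegreeFour

open SocDeg

universe u v

/-- The condition on `(s,t)`: `1 ≤ s`, `t ≤ C(s+1,2)` and `s - t ≤ C(a,3) + C(c-1,2)`, where `⌊t/2⌋ = C(a+1,2) + c` with
`0 ≤ c ≤ a` (`C(-1,2) = 0`; `a` and `c` are determined by `t`). -/
def Admissible (s t : ℕ) : Prop :=
  1 ≤ s ∧ t ≤ (s + 1).choose 2 ∧
    ∃ a c : ℕ, c ≤ a ∧ t / 2 = (a + 1).choose 2 + c ∧ s ≤ t + (a.choose 3 + (c - 1).choose 2)

theorem adm_iff (s t : ℕ) : Adm s t ↔ Admissible s t := by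
  unfold Adm Admissible
  constructor
  · rintro ⟨h1, h2, h3⟩
    obtain ⟨a, c, hc, h⟩ := exists_tri (t / 2)
    refine ⟨h1, h2, a, c, hc, h, ?_⟩
    rw [h, E_eq hc] at h3
    exact h3
  · rintro ⟨h1, h2, a, c, hc, h, h3⟩
    refine ⟨h1, h2, ?_⟩
    rw [h, E_eq hc]
    exact h3

theorem result :
    (∀ (k : Type u) [Field k] [Infinite k],
      (∀ (r : ℕ) (D : Fin (4 - 1) → ℕ → ℕ), D ∈ SymDecs k r 4 ↔
        ∃ s t p q, Admissible s t ∧ s + p + q = r ∧
          D = ![sq [1, s, t, s, 1], sq [0, p, p, 0], sq [0, q, 0]]) ∧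
      (∀ (r : ℕ) (H : ℕ → ℕ), H ∈ HilbFns k r 4 ↔
        ∃ s t p q, Admissible s t ∧ s + p + q = r ∧ H = sq [1, s + p + q, t + p, s, 1]) ∧
      (∀ s t : ℕ, sq [1, s, t, s, 1] ∈ HilbFns k s 4 ↔ Admissible s t)) ∧
    (∀ (k : Type u) [Field k] [Infinite k] (k' : Type v) [Field k'] [Infinite k'] (r j : ℕ), j ≤ 4 →
      SymDecs k r j = SymDecs k' r j ∧ HilbFns k r j = HilbFns k' r j) := by
  refine ⟨?_, fun k _ _ k' _ _ r j hj => indep r hj⟩
  intro k _ _
  have hH : ∀ (r : ℕ) (H : ℕ → ℕ), H ∈ HilbFns k r 4 ↔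
        ∃ s t p q, Admissible s t ∧ s + p + q = r ∧ H = sq [1, s + p + q, t + p, s, 1] := by
    intro r H
    rw [classifH]
    simp only [adm_iff]
  refine ⟨?_, hH, ?_⟩
  · intro r D
    rw [classif]
    simp only [adm_iff]
  · intro s t
    rw [hH]
    constructor
    · rintro ⟨s', t', p, q, h, hr, e⟩
      have e2 := congrFun e 2
      have e3 := congrFun e 3
      simp only [SocDeg.sq, List.getD_cons_succ, List.getD_cons_zero] at e2 e3
      obtain rfl : p = 0 := by omega
      obtain rfl : s = s' := e3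
      obtain rfl : t = t' := by omega
      exact h
    · intro h
      exact ⟨s, t, 0, 0, h, rfl, rfl⟩

end Pool.Agent.Results.MP_badd8c_ag.SocleDegreeFour
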